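import Pool.Agent.Lib.MP_42bfd7_mp.Main
import Pool.Agent.Lib.MP_42bfd7_mp.Dense2

namespace Pool.Agent.Results.MP_42bfd7_mp.Generic

open Pool.Agent.Lib.MP_42bfd7_mp

theorem result (γ : ℝ → E3) (L α β η : ℝ) (h : IsWire γ L) (hα : 0 ≤ α) (hα' : α < 1 / 2)
    (hβ : 1 / 2 < β) (hβ' : β ≤ 1) (hη : 0 < η) :
    ∃ γ₁ : ℝ → E3, IsWire γ₁ L ∧ HolderClose α η γ γ₁ ∧
      (∃ f : E3 ≃ₜ E3, f '' Set.range γ = Set.range γ₁) ∧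
      ∃ δ : ℝ, 0 < δ ∧ ∀ γ₂ : ℝ → E3, IsWire γ₂ L → HolderClose β δ γ₁ γ₂ →
        HasParallelLines γ₂ L := by
  obtain ⟨γ₁, h1, h2, h3, h4⟩ := h.dense hα hα' hη
  obtain ⟨δ, hδ, h5⟩ := h1.selfField_open h4 hβ hβ'
  exact ⟨γ₁, h1, h2, h3, δ, hδ, fun γ₂ h6 h7 => parallel_of_ne h6 fun s => (h5 γ₂ h6 h7 s).ne'⟩

end Pool.Agent.Results.MP_42bfd7_mp.Generic
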