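import Pool.Agent.Lib.MP_42bfd7_mp.YMain
import Pool.Agent.Lib.MP_42bfd7_mp.YtTip

/-!
For every exponent below one, a knotted wire of that Hölder class, smooth off two points, whose
Biot-Savart integral exists as a Riemann-Stieltjes integral everywhere off the wire and whose field
has no closed line of force.
-/

namespace Pool.Agent.Results.MP_42bfd7_mp.HolderWire

open Pool.Agent.Lib.MP_42bfd7_mp

theorem result (α : ℝ) (hα : 0 < α) (hα1 : α < 1) :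
    ∃ (γ : ℝ → E3) (L C : ℝ) (F : E3 → E3), IsLoop γ L ∧ SmoothOffTwo γ L ∧
    (∀ s ∈ Set.Icc 0 L, ∀ t ∈ Set.Icc 0 L, ‖γ s - γ t‖ ≤ C * |s - t| ^ α) ∧
    ¬BoundedVariationOn γ (Set.Icc 0 L) ∧ Knotted (γ '' Set.Icc 0 L) ∧
    (∀ x, x ∉ γ '' Set.Icc 0 L → HasBiotSavart γ L x (F x)) ∧
    ∀ I : ℝ, I ≠ 0 → ∀ (c : ℝ → E3) (T : ℝ), 0 < T → Function.Periodic c T →
      (∀ t, c t ∉ γ '' Set.Icc 0 L) →
      (∀ t, HasDerivAt c ((I / (4 * Real.pi)) • F (c t)) t) → ∀ t, c t = c 0 :=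
  holder_wire (fun _ ha _ => tip ha) α hα hα1

end Pool.Agent.Results.MP_42bfd7_mp.HolderWire
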