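import Pool.Agent.Lib.MP_42bfd7_mp.Main

namespace Pool.Agent.Results.MP_42bfd7_mp.NearWire

open Pool.Agent.Lib.MP_42bfd7_mp

theorem result (γ : ℝ → E3) (L : ℝ) (h : IsWire γ L) (hw : ∀ s, selfField γ L s ≠ 0) :
    HasParallelLines γ L :=
  parallel_of_ne h hw

end Pool.Agent.Results.MP_42bfd7_mp.NearWire
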